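import Mathlib
import Pool.Agent.Results.MP_91129c_co.LogOrder

/-!
# Conflict-free colouring of discs with bounded intersection degree: explicit bounds

`log_2 k < f(k) ≤ 3000 log k` for all `k ≥ 2`; moreover the number of colours of the colourings is
the same for all admissible families, and `f` is nondecreasing.
-/

set_option autoImplicit false

namespace Pool.Agent.Results.MP_91129c_co.ExplicitLogOrder

open Pool.Agent.Results.MP_91129c_co.LogOrder

lemma nonempty_set {k : ℕ} (hk : 2 ≤ k) : {m : ℕ | ∀ D : Finset (Plane × ℝ), Admissible k D →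
    ∃ χ : D → Fin m, ConflictFree D χ}.Nonempty := by
  obtain ⟨t, _, hD⟩ := upper k hk
  exact ⟨8 * t, hD⟩

/-- Explicit bounds of the same order: `k < 2 ^ f(k)` and `f(k) ≤ 3000 log k` for all `k ≥ 2`; `f` is
nondecreasing on `k ≥ 2`, and the minimum in the definition of `f` is attained. -/
theorem result : (∀ k : ℕ, 2 ≤ k → k < 2 ^ f k ∧ (f k : ℝ) ≤ 3000 * Real.log k ∧
      ∀ D : Finset (Plane × ℝ), Admissible k D → ∃ χ : D → Fin (f k), ConflictFree D χ) ∧
    ∀ k l : ℕ, 2 ≤ k → k ≤ l → f k ≤ f l := by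
  constructor
  · intro k hk
    obtain ⟨t, ht, hD⟩ := upper k hk
    have hmem := Nat.sInf_mem (nonempty_set hk)
    refine ⟨lower k (f k) hmem, ?_, hmem⟩
    refine le_trans ?_ ht
    have h6 : f k ≤ 8 * t := Nat.sInf_le hD
    exact_mod_cast h6
  · intro k l hk hkl
    have hmem := Nat.sInf_mem (nonempty_set (hk.trans hkl))
    apply Nat.sInf_le
    intro D hD
    exact hmem D ⟨hD.1, fun d hd => (hD.2 d hd).trans hkl⟩

end Pool.Agent.Results.MP_91129c_co.ExplicitLogOrder
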